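import Pool.Agent.H741.EL.Stm

/-!
# Project EL: elementary facts on the perturbed body `mix`

`body_hull` and `hs_hull` are the two lemmas of the same names of the library module
`Q188.Str.Basic`, repeated here in order not to import the perimeter files.
-/

set_option autoImplicit false
open MeasureTheory Metric Set Filter Topology

namespace Pool.Agent.H106.EL
open Pool.Agent.Y508 Pool.Agent.H741.EL

theorem body_hull {K : Set E2} (hK : Body K) (x : E2) : Body (convexHull ℝ (insert x K)) := by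
  refine ⟨?_, convex_convexHull _ _, ?_⟩
  · rw [convexHull_insert hK.ne, hK.cvx.convexHull_eq]
    have e : convexJoin ℝ {x} K =
        (fun p : ℝ × E2 => (1 - p.1) • x + p.1 • p.2) '' (Icc (0 : ℝ) 1 ×ˢ K) := by
      ext y
      rw [mem_convexJoin]
      constructor
      · rintro ⟨a, ha, b, hb, hy⟩
        rw [mem_singleton_iff] at ha
        subst ha
        rw [segment_eq_image] at hy
        obtain ⟨t, ht, rfl⟩ := hy
        exact ⟨(t, b), ⟨ht, hb⟩, rfl⟩
      · rintro ⟨⟨t, b⟩, ⟨ht, hb⟩, rfl⟩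
        refine ⟨x, rfl, b, hb, ?_⟩
        rw [segment_eq_image]
        exact ⟨t, ht, rfl⟩
    rw [e]
    apply (isCompact_Icc.prod hK.cpt).image
    fun_prop
  · exact hK.int.mono (interior_mono ((subset_insert _ _).trans (subset_convexHull _ _)))

theorem hs_hull {K : Set E2} (hK : Body K) (x : E2) (θ : ℝ) :
    hs (convexHull ℝ (insert x K)) θ = max (hs K θ) (ip x θ) := by
  apply le_antisymm
  · apply hs_le (body_hull hK x).ne
    intro y hy
    have hconv : Convex ℝ {z : E2 | ip z θ ≤ max (hs K θ) (ip x θ)} := by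
      intro a ha b hb s t hs0 ht hst
      simp only [mem_ofPred_eq] at ha hb ⊢
      rw [ip_add, ip_smul, ip_smul]
      calc s * ip a θ + t * ip b θ ≤ s * max (hs K θ) (ip x θ) + t * max (hs K θ) (ip x θ) := by
            gcongr
        _ = max (hs K θ) (ip x θ) := by rw [← add_mul, hst, one_mul]
    have hsub : insert x K ⊆ {z : E2 | ip z θ ≤ max (hs K θ) (ip x θ)} := by
      intro z hz
      rcases hz with hz | hz
      · rw [hz]
        exact le_max_right (hs K θ) (ip x θ)
      · exact (le_hs hK.cpt hz θ).trans (le_max_left _ _)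
    exact convexHull_min hsub hconv hy
  · apply max_le
    · exact hs_mono (body_hull hK x).cpt hK.ne ((subset_insert _ _).trans (subset_convexHull _ _)) θ
    · exact le_hs (body_hull hK x).cpt (subset_convexHull _ _ (mem_insert _ _)) θ

/-- the translate of a body -/
theorem body_trans {K : Set E2} (hK : Body K) (v : E2) : Body ((fun x => x - v) '' K) := by
  refine ⟨hK.cpt.image (continuous_id.sub continuous_const), ?_, ?_⟩
  · rintro _ ⟨x, hx, rfl⟩ _ ⟨y, hy, rfl⟩ a b ha hb hab
    refine ⟨a • x + b • y, hK.cvx hx hy ha hb hab, ?_⟩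
    have h : v = (a + b) • v := by rw [hab, one_smul]
    simp only
    calc a • x + b • y - v = a • x + b • y - (a + b) • v := by rw [← h]
      _ = a • (x - v) + b • (y - v) := by module
  · obtain ⟨x, hx⟩ := hK.int
    have ho : IsOpen ((fun x => x - v) '' interior K) :=
      (Homeomorph.subRight v).isOpenMap _ isOpen_interior
    refine ⟨x - v, ?_⟩
    exact interior_maximal (image_mono interior_subset) ho (mem_image_of_mem _ hx)

/-- the support function of a translate -/
theorem hs_trans {K : Set E2} (hK : Body K) (v : E2) (θ : ℝ) :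
    hs ((fun x => x - v) '' K) θ = hs K θ - ip v θ := by
  apply le_antisymm
  · apply hs_le (body_trans hK v).ne
    rintro _ ⟨x, hx, rfl⟩
    simp only
    rw [ip_sub]
    have := le_hs hK.cpt hx θ
    linarith
  · obtain ⟨x, hx, hxe⟩ := exists_hs hK.cpt hK.ne θ
    have h := le_hs (body_trans hK v).cpt (mem_image_of_mem (fun x => x - v) hx) θ
    rw [ip_sub] at h
    linarith

/-- a disc is a body -/
theorem body_ball (c : E2) {s : ℝ} (hs0 : 0 < s) : Body (closedBall c s) := by
  refine ⟨isCompact_closedBall c s, convex_closedBall c s, c, ?_⟩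
  exact ball_subset_interior_closedBall (mem_ball_self hs0)

/-- the support function of a disc -/
theorem hs_ball (c : E2) {s : ℝ} (hs0 : 0 < s) (θ : ℝ) : hs (closedBall c s) θ = ip c θ + s := by
  apply le_antisymm
  · apply hs_le (body_ball c hs0).ne
    intro x hx
    rw [mem_closedBall, dist_eq_norm] at hx
    have h1 := (le_abs_self _).trans ((abs_ip_le (x - c) θ).trans hx)
    rw [ip_sub] at h1
    linarith
  · have hm : c + s • ev θ ∈ closedBall c s := by
      rw [mem_closedBall, dist_eq_norm, add_sub_cancel_left, norm_smul, norm_ev, mul_one,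
        Real.norm_eq_abs, abs_of_pos hs0]
    have h := le_hs (body_ball c hs0).cpt hm θ
    rw [ip_add, ip_smul, ip_ev, sub_self, Real.cos_zero, mul_one] at h
    exact h

/-- the Minkowski combination of two bodies -/
noncomputable def comb (A B : Set E2) (t : ℝ) : Set E2 :=
  (fun z : E2 × E2 => (1 - t) • z.1 + t • z.2) '' (A ×ˢ B)

theorem mem_comb {A B : Set E2} {t : ℝ} {x y : E2} (hx : x ∈ A) (hy : y ∈ B) :
    (1 - t) • x + t • y ∈ comb A B t := ⟨(x, y), ⟨hx, hy⟩, rfl⟩

theorem isOpen_aff {U : Set E2} (hU : IsOpen U) {c : ℝ} (hc : c ≠ 0) (v : E2) :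
    IsOpen ((fun x => c • x + v) '' U) :=
  ((Homeomorph.smulOfNeZero c hc).trans (Homeomorph.addRight v)).isOpenMap U hU

theorem body_comb {A B : Set E2} (hA : Body A) (hB : Body B) {t : ℝ} (ht1 : t ≤ 1) :
    Body (comb A B t) := by
  refine ⟨?_, ?_, ?_⟩
  · apply (hA.cpt.prod hB.cpt).image
    fun_prop
  · rintro _ ⟨⟨x, y⟩, ⟨hx, hy⟩, rfl⟩ _ ⟨⟨x', y'⟩, ⟨hx', hy'⟩, rfl⟩ a b ha hb hab
    refine ⟨(a • x + b • x', a • y + b • y'),
      ⟨hA.cvx hx hx' ha hb hab, hB.cvx hy hy' ha hb hab⟩, ?_⟩
    simp only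
    module
  · rcases ht1.lt_or_eq with h | h
    · obtain ⟨x, hx⟩ := hA.int
      obtain ⟨y, hy⟩ := hB.ne
      have ho := isOpen_aff (isOpen_interior (s := A)) (sub_pos.2 h).ne' (t • y)
      refine ⟨(1 - t) • x + t • y, interior_maximal ?_ ho ⟨x, hx, rfl⟩⟩
      rintro _ ⟨z, hz, rfl⟩
      exact mem_comb (interior_subset hz) hy
    · obtain ⟨x, hx⟩ := hA.ne
      obtain ⟨y, hy⟩ := hB.int
      have ht : t ≠ 0 := by rw [h]; exact one_ne_zero
      have ho := isOpen_aff (isOpen_interior (s := B)) ht ((1 - t) • x)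
      refine ⟨t • y + (1 - t) • x, interior_maximal ?_ ho ⟨y, hy, rfl⟩⟩
      rintro _ ⟨z, hz, rfl⟩
      simp only
      rw [add_comm]
      exact mem_comb hx (interior_subset hz)

theorem hs_comb {A B : Set E2} (hA : Body A) (hB : Body B) {t : ℝ} (ht0 : 0 ≤ t) (ht1 : t ≤ 1)
    (θ : ℝ) : hs (comb A B t) θ = (1 - t) * hs A θ + t * hs B θ := by
  have h1t : 0 ≤ 1 - t := sub_nonneg.2 ht1
  apply le_antisymm
  · apply hs_le (body_comb hA hB ht1).ne
    rintro _ ⟨⟨x, y⟩, ⟨hx, hy⟩, rfl⟩
    simp only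
    rw [ip_add, ip_smul, ip_smul]
    exact add_le_add (mul_le_mul_of_nonneg_left (le_hs hA.cpt hx θ) h1t)
      (mul_le_mul_of_nonneg_left (le_hs hB.cpt hy θ) ht0)
  · obtain ⟨x, hx, hxe⟩ := exists_hs hA.cpt hA.ne θ
    obtain ⟨y, hy, hye⟩ := exists_hs hB.cpt hB.ne θ
    have h := le_hs (body_comb hA hB ht1).cpt (mem_comb (t := t) hx hy) θ
    rw [ip_add, ip_smul, ip_smul] at h
    rw [hxe, hye]
    exact h

theorem t_MIX : S_MIX := by
  intro p K w θp R s δ t hK hs0 ht0 ht1
  have hA0 := body_trans hK (δ • w)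
  have hB0 := body_ball (p - R • ev θp) hs0
  have hA := body_hull hA0 p
  have hB := body_hull hB0 p
  have e : mix p K w θp R s δ t = comb (convexHull ℝ (insert p ((fun x => x - δ • w) '' K)))
      (convexHull ℝ (insert p (closedBall (p - R • ev θp) s))) t := rfl
  rw [e]
  refine ⟨body_comb hA hB ht1, ?_, ?_, ?_⟩
  · have h := mem_comb (t := t) (subset_convexHull ℝ _ (mem_insert p ((fun x => x - δ • w) '' K)))
      (subset_convexHull ℝ _ (mem_insert p (closedBall (p - R • ev θp) s)))
    have e2 : (1 - t) • p + t • p = p := by rw [← add_smul, sub_add_cancel, one_smul]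
    rwa [e2] at h
  · intro θ
    rw [hs_comb hA hB ht0 ht1, hs_hull hA0, hs_hull hB0, hs_trans hK, hs_ball _ hs0, ip_smul,
      ip_sub, ip_smul, ip_ev]
  · intro x hx y hy
    refine mem_comb ?_ ?_
    · exact subset_convexHull ℝ _ (mem_insert_of_mem _ ⟨x, hx, rfl⟩)
    · exact subset_convexHull ℝ _ (mem_insert_of_mem _ hy)

end Pool.Agent.H106.EL
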